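import Pool.Agent.H681R2.GA.Main

/-!
# Transfer of complete languages from generic oracles
-/

namespace Pool.Agent.H681R2.GT

open Pool.Agent.NPC Pool.Agent.H681R2.GA

/-- Tables. -/
abbrev Tb : Type := List (List Bool × Bool)

/-- The class `NP` relative to the oracle `X`. -/
def InNPRel (X : Orc) (L : Set (List Bool)) : Prop :=
  ∃ (V : List Bool → List Bool) (q : Polynomial ℕ), PolyTimeRel X V ∧
    ∀ x, x ∈ L ↔ ∃ w : List Bool, w.length ≤ q.eval x.length ∧ V (pairBits x w) = [true]

/-- Polynomial-time many-one reducibility relative to the oracle `X`. -/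
def ReducesRel (X : Orc) (L L' : Set (List Bool)) : Prop :=
  ∃ f : List Bool → List Bool, PolyTimeRel X f ∧ ∀ x, x ∈ L ↔ f x ∈ L'

/-- Acceptance of `x` by the nondeterministic oracle machine `(next, p, q)`. -/
def acc (next : List Bool → List Bool) (p q : Polynomial ℕ) (X : Orc) (x : List Bool) : Prop :=
  ∃ w : List Bool, w.length ≤ q.eval x.length ∧ oRun next p X (pairBits x w) = [true]

theorem local_acc (next : List Bool → List Bool) (p q : Polynomial ℕ) (x : List Bool) :
    Local (fun X => acc next p q X x) :=
  Local.exists_bounded (P := fun w X => oRun next p X (pairBits x w) = [true])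
    (fun w => (localF_oRun next p (pairBits x w)).local (fun y => y = [true])) _

theorem local_acc_bind {F : Orc → List Bool} (hF : LocalF F) (next : List Bool → List Bool)
    (p q : Polynomial ℕ) : Local (fun X => acc next p q X (F X)) := by
  intro X
  obtain ⟨ρ, h1, h2⟩ := hF X
  obtain ⟨ρ', h1', h2'⟩ := local_acc next p q (F X) X
  refine ⟨ρ ++ ρ', ext_append.2 ⟨h1, h1'⟩, fun Y hY => ?_⟩
  rw [ext_append] at hY
  have e1 := h2 Y hY.1
  have e2 := h2' Y hY.2
  simp only [e1, e2]

/-- The simulated language: the inputs are pairs of a table and an input of the machine. -/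
def simL (next : List Bool → List Bool) (p q : Polynomial ℕ) (σ : Tb) (d : Bool) :
    Set (List Bool) :=
  {z | (unbits (Tb × List Bool) z).elim (d = true)
    (fun r => acc next p q (tab (σ ++ r.1)) r.2)}

theorem mem_simL {next : List Bool → List Bool} {p q : Polynomial ℕ} {σ : Tb} {d : Bool} {α : Tb}
    {y : List Bool} : bits ((α, y) : Tb × List Bool) ∈ simL next p q σ d ↔
      acc next p q (tab (σ ++ α)) y := by
  simp only [simL, Set.mem_ofPred_eq, unbits_bits, Option.elim_some]

/-- The verifier of the simulated language. -/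
def simV (next : List Bool → List Bool) (p q : Polynomial ℕ) (σ : Tb) (d : Bool)
    (y : List Bool) : List Bool :=
  (unbits (Tb × List Bool) (unpair y).1).elim (if d = true then [true] else [])
    (fun r => if (unpair y).2.length ≤ (List.replicate (q.eval r.2.length) ()).length then
      oRun next p (tab (σ ++ r.1)) (pairBits r.2 (unpair y).2) else [])

theorem poly_simV {next : List Bool → List Bool} (hn : Poly next) (p q : Polynomial ℕ) (σ : Tb)
    (d : Bool) : Poly (simV next p q σ d) := by
  have h1 : Poly (fun y : List Bool => unbits (Tb × List Bool) (unpair y).1) :=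
    poly_unbits' poly_up1
  have a1 : Poly (fun a : List Bool × (Tb × List Bool) => (unpair a.1).2) :=
    poly_up2.comp (Poly.fst Poly.id)
  have a2 : Poly (fun a : List Bool × (Tb × List Bool) => a.2.2) :=
    Poly.snd (Poly.snd Poly.id)
  have a3 : Poly (fun a : List Bool × (Tb × List Bool) =>
      List.replicate (q.eval a.2.2.length) ()) := (UPoly.length a2).eval q
  have a4 : Poly (fun a : List Bool × (Tb × List Bool) =>
      decide ((unpair a.1).2.length ≤ (List.replicate (q.eval a.2.2.length) ()).length)) :=
    Poly.decide_le (Poly.length a1) (Poly.length a3)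
  have a5 : Poly (fun a : List Bool × (Tb × List Bool) => σ ++ a.2.1) :=
    Poly.append (NPC.Poly.const σ) (Poly.fst (Poly.snd Poly.id))
  have a6 : Poly (fun a : List Bool × (Tb × List Bool) =>
      oRun next p (tab (σ ++ a.2.1)) (pairBits a.2.2 (unpair a.1).2)) :=
    poly_oRun hn p a5 (poly_pairBits a2 a1)
  exact Poly.optElim (h := fun y (r : Tb × List Bool) =>
    if (unpair y).2.length ≤ (List.replicate (q.eval r.2.length) ()).length then
      oRun next p (tab (σ ++ r.1)) (pairBits r.2 (unpair y).2) else [])
    h1 (NPC.Poly.const _) (Poly.ite a4 a6 (NPC.Poly.const []))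

theorem inNP_simL {next : List Bool → List Bool} (hn : PolyTime next) (p q : Polynomial ℕ)
    (σ : Tb) (d : Bool) : InNP (simL next p q σ d) := by
  refine ⟨simV next p q σ d, q, PIso.poly_iff.1 (poly_simV (PIso.poly_iff.2 hn) p q σ d),
    fun z => ?_⟩
  simp only [simL, Set.mem_ofPred_eq, simV, unpair_pairBits, List.length_replicate]
  cases hz : unbits (Tb × List Bool) z with
  | none =>
    simp only [Option.elim_none]
    constructor
    · intro h
      exact ⟨[], by simp, by rw [if_pos h]⟩
    · rintro ⟨w, _, h⟩
      by_contra hd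
      rw [if_neg hd] at h
      simp at h
  | some r =>
    simp only [Option.elim_some]
    have hle : r.2.length ≤ z.length := by
      have h2 := bits_of_unbits hz
      have h3 : sz r = z.length := by rw [← bits_length, h2]
      have h4 : r.2.length < sz r.2 := length_lt_sz r.2
      have h5 : sz r = sz r.1 + sz r.2 + 1 := by
        obtain ⟨d1, d2⟩ := r
        exact sz_pair _ _
      omega
    constructor
    · rintro ⟨w, hw, h⟩
      exact ⟨w, hw.trans (eval_mono q hle), by rw [if_pos hw, h]⟩
    · rintro ⟨w, _, h⟩
      by_cases hw : w.length ≤ q.eval r.2.length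
      · rw [if_pos hw] at h
        exact ⟨w, hw, h⟩
      · rw [if_neg hw] at h
        simp at h

/-- The reduction relative to an oracle given by a table. -/
theorem polyTime_tabRun {next : List Bool → List Bool} (hn : PolyTime next) (p : Polynomial ℕ)
    (ρ : Tb) : PolyTime (oRun next p (tab ρ)) :=
  PIso.poly_iff.1 (poly_oRun (PIso.poly_iff.2 hn) p (NPC.Poly.const ρ) Poly.id)

theorem polyTime_redTab {next : List Bool → List Bool} (hn : PolyTime next) (p : Polynomial ℕ)
    (ρ τ : Tb) : PolyTime (fun x => bits ((τ, oRun next p (tab ρ) x) : Tb × List Bool)) :=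
  PIso.poly_iff.1 (poly_bits' (Poly.pair (NPC.Poly.const τ)
    (PIso.poly_iff.2 (polyTime_tabRun hn p ρ))))

/-- Polynomial-time functions are polynomial-time relative to every oracle. -/
theorem polyTimeRel_of_polyTime {f : List Bool → List Bool} (hf : PolyTime f) (X : Orc) :
    PolyTimeRel X f := by
  refine ⟨fun y => true :: f (unpair y).1, 0, PIso.poly_iff.1
    (Poly.cons (NPC.Poly.const true) ((PIso.poly_iff.2 hf).comp poly_up1)), fun w => ?_⟩
  rw [oRun_eq, unpair_pairBits]
  rfl

theorem inNP_rel {L : Set (List Bool)} (h : InNP L) (X : Orc) : InNPRel X L := by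
  obtain ⟨V, q, hV, h⟩ := h
  exact ⟨V, q, polyTimeRel_of_polyTime hV X, h⟩

theorem reduces_rel {L L' : Set (List Bool)} (h : Reduces L L') (X : Orc) : ReducesRel X L L' := by
  obtain ⟨f, hf, h⟩ := h
  exact ⟨f, polyTimeRel_of_polyTime hf X, h⟩

/-- Codes of languages in `NP`. -/
theorem inNPRel_iff {X : Orc} {L : Set (List Bool)} : InNPRel X L ↔
    ∃ (next : List Bool → List Bool) (p q : Polynomial ℕ), PolyTime next ∧
      ∀ x, x ∈ L ↔ acc next p q X x := by
  constructor
  · rintro ⟨V, q, ⟨next, p, hn, hV⟩, h⟩
    refine ⟨next, p, q, hn, fun x => ?_⟩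
    rw [h, acc]
    simp only [hV]
  · rintro ⟨next, p, q, hn, h⟩
    exact ⟨oRun next p X, q, ⟨next, p, hn, fun _ => rfl⟩, h⟩

end Pool.Agent.H681R2.GT
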