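import Pool.Agent.H681R2.GT.Base

/-!
# `NP ∩ coNP` and generic oracles
-/

namespace Pool.Agent.H681R2.GT

open Pool.Agent.NPC Pool.Agent.H681R2.GA

theorem ext_tab_append {X : Orc} {σ : Tb} (h : Ext X σ) (α : Tb) : Ext (tab (σ ++ α)) σ := by
  rintro ⟨q, b⟩ hr
  have h1 := ext_tab h (q, b) hr
  have h2 : (q, b) ∈ σ.filter (fun r => decide (r.1 = q)) := by simp [hr]
  simp only [tab, List.filter_append] at h1 ⊢
  cases hh : (σ.filter (fun r => decide (r.1 = q))) with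
  | nil => rw [hh] at h2; simp at h2
  | cons r l =>
    rw [hh] at h1
    simpa using h1

/-- A language in `NP ∩ coNP`. -/
def InNPcoNP (L : Set (List Bool)) : Prop := InNP L ∧ InNP Lᶜ

/-- A language in `NP ∩ coNP` relative to `X`. -/
def InNPcoNPRel (X : Orc) (L : Set (List Bool)) : Prop := InNPRel X L ∧ InNPRel X Lᶜ

/-- Codes of nondeterministic oracle machines. -/
abbrev NCode : Type := PT × Polynomial ℕ × Polynomial ℕ

/-- Acceptance by the machine with a given code. -/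
def NCode.acc (e : NCode) (X : Orc) (x : List Bool) : Prop := GT.acc e.1.1 e.2.1 e.2.2 X x

theorem exists_code {X : Orc} {L : Set (List Bool)} (h : InNPRel X L) :
    ∃ e : NCode, ∀ x, x ∈ L ↔ e.acc X x := by
  obtain ⟨next, p, q, hn, h⟩ := inNPRel_iff.1 h
  exact ⟨⟨⟨next, hn⟩, p, q⟩, h⟩

theorem transfer_NPcoNP (F : Set (Set (List Bool))) (hF : F.Countable) :
    ∀ᶠ X in residual Orc, ∀ C, InNPcoNPRel X C →
      ∃ C', InNPcoNP C' ∧ ∀ L ∈ F, ReducesRel X L C → Reduces L C' := by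
  haveI : Countable F := hF.to_subtype
  have G1 := generic (ι := NCode × NCode)
    (fun i => {Y | ∀ x, (i.1.acc Y x ↔ ¬ i.2.acc Y x)})
    (fun i => isClosed_forall fun x => (local_acc _ _ _ x).iff (local_acc _ _ _ x).not)
  have G2 := generic (ι := F × NCode × PT × Polynomial ℕ)
    (fun i => {Y | ∀ x, (x ∈ i.1.1 ↔ i.2.1.acc Y (oRun i.2.2.1.1 i.2.2.2 Y x))})
    (fun i => isClosed_forall fun x => Local.iff
      (fun Y => ⟨[], by simp [GA.Ext], fun _ _ => Iff.rfl⟩)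
      (local_acc_bind (localF_oRun _ _ x) _ _ _))
  filter_upwards [G1, G2] with X G1 G2
  rintro C ⟨hC0, hC1⟩
  obtain ⟨e0, h0⟩ := exists_code hC0
  obtain ⟨e1, h1⟩ := exists_code hC1
  obtain ⟨σ, hσ, hs⟩ := G1 (e0, e1) (fun x => by rw [← h0, ← h1]; simp)
  have hprom : ∀ (α : Tb) (x : List Bool), e0.acc (tab (σ ++ α)) x ↔ ¬ e1.acc (tab (σ ++ α)) x :=
    fun α x => hs _ (ext_tab_append hσ α) x
  refine ⟨simL e0.1.1 e0.2.1 e0.2.2 σ false, ⟨inNP_simL e0.1.2 _ _ _ _, ?_⟩, ?_⟩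
  · have h2 : (simL e0.1.1 e0.2.1 e0.2.2 σ false)ᶜ = simL e1.1.1 e1.2.1 e1.2.2 σ true := by
      ext z
      simp only [simL, Set.mem_compl_iff, Set.mem_ofPred_eq]
      cases hz : unbits (Tb × List Bool) z with
      | none => simp
      | some r =>
        simp only [Option.elim_some]
        have h3 := hprom r.1 r.2
        simp only [NCode.acc] at h3
        rw [h3, not_not]
    rw [h2]
    exact inNP_simL e1.1.2 _ _ _ _
  · rintro L hL ⟨f, ⟨nextF, pF, hnF, hf⟩, hred⟩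
    obtain ⟨τ, hτ, ht⟩ := G2 (⟨L, hL⟩, e0, ⟨nextF, hnF⟩, pF) (fun x => by
      rw [hred x, h0, hf])
    refine ⟨_, polyTime_redTab hnF pF (σ ++ τ) τ, fun x => ?_⟩
    rw [mem_simL]
    have h3 : Ext (tab (σ ++ τ)) τ := (ext_append.1 (ext_tab (ext_append.2 ⟨hσ, hτ⟩))).2
    exact ht _ h3 x

theorem countable_inNP : {L : Set (List Bool) | InNP L}.Countable := by
  have h1 : {L : Set (List Bool) | InNP L} ⊆ Set.range (fun c : PT × Polynomial ℕ =>
      {x : List Bool | ∃ w : List Bool, w.length ≤ c.2.eval x.length ∧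
        c.1.1 (pairBits x w) = [true]}) := by
    rintro L ⟨V, p, hV, h⟩
    exact ⟨⟨⟨V, hV⟩, p⟩, by ext x; exact (h x).symm⟩
  exact (Set.countable_range _).mono h1

theorem main_NPcoNP : ∀ᶠ X in residual Orc,
    ((∃ C, InNPcoNPRel X C ∧ ∀ L, InNPcoNP L → ReducesRel X L C) ↔
      ∃ C, InNPcoNP C ∧ ∀ L, InNPcoNP L → Reduces L C) ∧
    ((∃ C, InNPcoNPRel X C ∧ ∀ L, InNPcoNPRel X L → ReducesRel X L C) →
      ∃ C, InNPcoNP C ∧ ∀ L, InNPcoNP L → Reduces L C) := by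
  have h := transfer_NPcoNP {L | InNPcoNP L} (countable_inNP.mono fun L hL => hL.1)
  filter_upwards [h] with X h
  have key : (∃ C, InNPcoNPRel X C ∧ ∀ L, InNPcoNP L → ReducesRel X L C) →
      ∃ C, InNPcoNP C ∧ ∀ L, InNPcoNP L → Reduces L C := by
    rintro ⟨C, hC, hC'⟩
    obtain ⟨C', h1, h2⟩ := h C hC
    exact ⟨C', h1, fun L hL => h2 L hL (hC' L hL)⟩
  refine ⟨⟨key, ?_⟩, ?_⟩
  · rintro ⟨C, hC, hC'⟩
    exact ⟨C, ⟨inNP_rel hC.1 X, inNP_rel hC.2 X⟩, fun L hL => reduces_rel (hC' L hL) X⟩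
  · rintro ⟨C, hC, hC'⟩
    exact key ⟨C, hC, fun L hL => hC' L ⟨inNP_rel hL.1 X, inNP_rel hL.2 X⟩⟩

end Pool.Agent.H681R2.GT
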